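import Mathlib
import Pool.Agent.X142.Exist

/-!
Directed edge reinforced random walk with polynomial reinforcement: for small exponents the walk
is almost surely never trapped in a directed circuit.
-/

open MeasureTheory Finset
open scoped ENNReal

namespace Pool.Agent.Results.MP_856411_pr.NeverTrapped

variable {V : Type}

/-- The crossing number `c_n(x,y)` of the trajectory `s`: the number of jumps from `x` to `y` before
time `n` minus the number of jumps from `y` to `x` before time `n`. -/
def crossing [DecidableEq V] (s : ℕ → V) (n : ℕ) (x y : V) : ℤ :=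
  ∑ k ∈ range n, ((if s k = x ∧ s (k + 1) = y then (1 : ℤ) else 0) -
    (if s k = y ∧ s (k + 1) = x then (1 : ℤ) else 0))

/-- The polynomial weight: `c^γ` for `c > 0`, `1` for `c = 0`, `(-c)^(-γ)` for `c < 0`. -/
noncomputable def polyWeight (γ : ℝ) (c : ℤ) : ℝ :=
  if 0 < c then (c : ℝ) ^ γ else if c = 0 then 1 else (-(c : ℝ)) ^ (-γ)

/-- The probability that the walk with trajectory `s` up to time `n` jumps to `y`. -/
noncomputable def stepProb [DecidableEq V] (G : SimpleGraph V) [G.LocallyFinite] (γ : ℝ)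
    (s : ℕ → V) (n : ℕ) (y : V) : ℝ :=
  if y ∈ G.neighborFinset (s n) then
    polyWeight γ (crossing s n (s n) y) /
      ∑ z ∈ G.neighborFinset (s n), polyWeight γ (crossing s n (s n) z)
  else 0

/-- `X` is the directed edge reinforced random walk on `G` started at `v` with polynomial
reinforcement with parameter `γ`. -/
structure IsReinforcedWalk [DecidableEq V] (G : SimpleGraph V) [G.LocallyFinite] (γ : ℝ) (v : V)
    {Ω : Type} [MeasurableSpace Ω] (P : Measure Ω) (X : ℕ → Ω → V) : Prop where
  prob : IsProbabilityMeasure P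
  meas : ∀ n x, MeasurableSet {ω | X n ω = x}
  start : P {ω | X 0 ω = v} = 1
  step : ∀ (n : ℕ) (s : ℕ → V) (y : V), P {ω | (∀ k ≤ n, X k ω = s k) ∧ X (n + 1) ω = y} =
    P {ω | ∀ k ≤ n, X k ω = s k} * ENNReal.ofReal (stepProb G γ s n y)

/-- The trajectory `x` is trapped in a directed circuit: there are `m ≥ 3`, distinct vertices
`u_i`, `i ∈ ZMod m`, with `u_i ∼ u_{i+1}`, and `N`, `i` with `x_{N+j} = u_{i+j}` for all `j`. -/
def Trapped (G : SimpleGraph V) (x : ℕ → V) : Prop :=
  ∃ (m : ℕ) (u : ZMod m → V), 3 ≤ m ∧ Function.Injective u ∧ (∀ i, G.Adj (u i) (u (i + 1))) ∧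
    ∃ (N : ℕ) (i : ZMod m), ∀ j : ℕ, x (N + j) = u (i + (j : ZMod m))

section weights

lemma crossing_abs_le [DecidableEq V] (s : ℕ → V) (n : ℕ) (x y : V) :
    |crossing s n x y| ≤ n := by
  unfold crossing
  refine (Finset.abs_sum_le_sum_abs _ _).trans ?_
  calc _ ≤ ∑ k ∈ range n, (1 : ℤ) := by
        apply Finset.sum_le_sum
        intro k _
        split_ifs <;> simp
    _ = n := by simp

lemma polyWeight_pos {γ : ℝ} (c : ℤ) : 0 < polyWeight γ c := by
  unfold polyWeight
  split_ifs with h1 h2
  · have : (0 : ℝ) < c := by exact_mod_cast h1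
    positivity
  · norm_num
  · have h3 : c < 0 := lt_of_le_of_ne (not_lt.mp h1) h2
    have : (0 : ℝ) < -(c : ℝ) := by
      have : (c : ℝ) < 0 := by exact_mod_cast h3
      linarith
    positivity

lemma polyWeight_le {γ : ℝ} (hγ : 0 < γ) {c : ℤ} {n : ℕ} (hc : |c| ≤ n) :
    polyWeight γ c ≤ ((n : ℝ) + 1) ^ γ := by
  have hn1 : (1 : ℝ) ≤ (n : ℝ) + 1 := by linarith [(Nat.cast_nonneg n : (0 : ℝ) ≤ n)]
  have h1le : (1 : ℝ) ≤ ((n : ℝ) + 1) ^ γ := Real.one_le_rpow hn1 hγ.le
  unfold polyWeight
  split_ifs with h1 h2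
  · have h0 : (0 : ℝ) < c := by exact_mod_cast h1
    have : (c : ℝ) ≤ (n : ℝ) + 1 := by
      have : c ≤ n := (le_abs_self c).trans hc
      have : (c : ℝ) ≤ n := by exact_mod_cast this
      linarith
    exact Real.rpow_le_rpow h0.le this hγ.le
  · exact h1le
  · have h3 : c < 0 := lt_of_le_of_ne (not_lt.mp h1) h2
    have h4 : (1 : ℝ) ≤ -(c : ℝ) := by
      have : (1 : ℤ) ≤ -c := by omega
      exact_mod_cast this
    exact (Real.rpow_le_one_of_one_le_of_nonpos h4 (by linarith)).trans h1le

lemma le_polyWeight {γ : ℝ} (hγ : 0 < γ) {c : ℤ} {n : ℕ} (hc : |c| ≤ n) :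
    ((n : ℝ) + 1) ^ (-γ) ≤ polyWeight γ c := by
  have hn1 : (1 : ℝ) ≤ (n : ℝ) + 1 := by linarith [(Nat.cast_nonneg n : (0 : ℝ) ≤ n)]
  have h1le : ((n : ℝ) + 1) ^ (-γ) ≤ 1 := Real.rpow_le_one_of_one_le_of_nonpos hn1 (by linarith)
  unfold polyWeight
  split_ifs with h1 h2
  · have h0 : (1 : ℝ) ≤ c := by exact_mod_cast h1
    exact h1le.trans (Real.one_le_rpow h0 hγ.le)
  · exact h1le
  · have h3 : c < 0 := lt_of_le_of_ne (not_lt.mp h1) h2
    have h4 : (0 : ℝ) < -(c : ℝ) := by
      have : (c : ℝ) < 0 := by exact_mod_cast h3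
      linarith
    have h5 : -(c : ℝ) ≤ (n : ℝ) + 1 := by
      have : -c ≤ n := (neg_le_abs c).trans hc
      have : -(c : ℝ) ≤ n := by exact_mod_cast this
      linarith
    exact Real.rpow_le_rpow_of_nonpos h4 h5 (by linarith)

end weights

section steps

variable [DecidableEq V] (G : SimpleGraph V) [G.LocallyFinite] {γ : ℝ}

lemma stepProb_nonneg (s : ℕ → V) (n : ℕ) (y : V) : 0 ≤ stepProb G γ s n y := by
  unfold stepProb
  split_ifs
  · exact div_nonneg (polyWeight_pos _).le (Finset.sum_nonneg fun z _ => (polyWeight_pos _).le)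
  · exact le_rfl

lemma stepProb_le_one (s : ℕ → V) (n : ℕ) (y : V) : stepProb G γ s n y ≤ 1 := by
  unfold stepProb
  split_ifs with h
  · apply div_le_one_of_le₀
    · exact Finset.single_le_sum (f := fun z => polyWeight γ (crossing s n (s n) z))
        (fun z _ => (polyWeight_pos _).le) h
    · exact Finset.sum_nonneg fun z _ => (polyWeight_pos _).le
  · norm_num

/-- If the current vertex has a neighbour `z ≠ y` of weight at least `w`, the probability to jump
to `y` is at most `1 - w / (w + (n+1)^γ)`. -/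
lemma stepProb_le (hγ : 0 < γ) (s : ℕ → V) (n : ℕ) {y z : V} (hz : G.Adj (s n) z) (hyz : z ≠ y)
    {w : ℝ} (hw : 0 < w) (hwz : w ≤ polyWeight γ (crossing s n (s n) z)) :
    stepProb G γ s n y ≤ 1 - w / (w + ((n : ℝ) + 1) ^ γ) := by
  have hM : (0 : ℝ) < ((n : ℝ) + 1) ^ γ := by positivity
  unfold stepProb
  split_ifs with h
  · set Wy := polyWeight γ (crossing s n (s n) y) with hWy
    set Wz := polyWeight γ (crossing s n (s n) z) with hWz
    have hWy0 : 0 < Wy := polyWeight_pos _
    have hWyM : Wy ≤ ((n : ℝ) + 1) ^ γ := polyWeight_le hγ (crossing_abs_le _ _ _ _)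
    have hsum : Wy + Wz ≤ ∑ x ∈ G.neighborFinset (s n), polyWeight γ (crossing s n (s n) x) := by
      have hsub : ({y, z} : Finset V) ⊆ G.neighborFinset (s n) := by
        intro t ht
        simp only [mem_insert, mem_singleton] at ht
        rcases ht with rfl | rfl
        · exact h
        · simpa using hz
      calc Wy + Wz = ∑ x ∈ ({y, z} : Finset V), polyWeight γ (crossing s n (s n) x) := by
            rw [Finset.sum_pair hyz.symm]
        _ ≤ _ := Finset.sum_le_sum_of_subset_of_nonneg hsub
            (fun _ _ _ => (polyWeight_pos _).le)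
    calc Wy / ∑ x ∈ G.neighborFinset (s n), polyWeight γ (crossing s n (s n) x)
        ≤ Wy / (Wy + Wz) := by
          exact div_le_div_of_nonneg_left hWy0.le (add_pos hWy0 (polyWeight_pos _)) hsum
      _ ≤ Wy / (Wy + w) := by
          apply div_le_div_of_nonneg_left hWy0.le (by positivity)
          linarith
      _ ≤ 1 - w / (w + ((n : ℝ) + 1) ^ γ) := by
          have h1 : w / (w + ((n : ℝ) + 1) ^ γ) ≤ w / (w + Wy) := by
            apply div_le_div_of_nonneg_left hw.le (by positivity)
            linarith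
          have h2 : Wy / (Wy + w) = 1 - w / (w + Wy) := by
            field_simp
            ring
          linarith
  · have : w / (w + ((n : ℝ) + 1) ^ γ) ≤ 1 := by
      apply div_le_one_of_le₀ <;> linarith
    linarith

end steps

section path

variable [DecidableEq V] {G : SimpleGraph V} [G.LocallyFinite] {γ : ℝ} {v : V} {Ω : Type}
  [MeasurableSpace Ω] {P : Measure Ω} {X : ℕ → Ω → V}

lemma prob_path_le (h : IsReinforcedWalk G γ v P X) (s : ℕ → V) (n : ℕ) :
    P {ω | ∀ k ≤ n, X k ω = s k} ≤ ENNReal.ofReal (∏ k ∈ range n, stepProb G γ s k (s (k + 1))) := by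
  induction n with
  | zero =>
    haveI := h.prob
    simpa using prob_le_one
  | succ n ih =>
    have e : {ω | ∀ k ≤ n + 1, X k ω = s k} =
        {ω | (∀ k ≤ n, X k ω = s k) ∧ X (n + 1) ω = s (n + 1)} := by
      ext ω
      simp only [Set.mem_ofPred_eq]
      constructor
      · intro hk
        exact ⟨fun k hkn => hk k (by omega), hk (n + 1) le_rfl⟩
      · rintro ⟨h1, h2⟩ k hk
        rcases Nat.lt_or_ge k (n + 1) with h3 | h3
        · exact h1 k (by omega)
        · have : k = n + 1 := by omega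
          rw [this]; exact h2
    rw [e, h.step n s (s (n + 1)), Finset.prod_range_succ, ENNReal.ofReal_mul]
    · gcongr
    · exact Finset.prod_nonneg fun k _ => stepProb_nonneg G _ _ _

/-- A fixed infinite trajectory has probability zero if the deficits along it are not summable. -/
lemma prob_traj_eq_zero (h : IsReinforcedWalk G γ v P X) (s : ℕ → V) (ε : ℕ → ℝ)
    (hε0 : ∀ k, 0 ≤ ε k) (hε : ∀ k, stepProb G γ s k (s (k + 1)) ≤ 1 - ε k)
    (hdiv : Filter.Tendsto (fun n => ∑ k ∈ range n, ε k) Filter.atTop Filter.atTop) :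
    P {ω | ∀ k, X k ω = s k} = 0 := by
  have hbound : ∀ n, P {ω | ∀ k, X k ω = s k} ≤ ENNReal.ofReal (Real.exp (-∑ k ∈ range n, ε k)) := by
    intro n
    calc P {ω | ∀ k, X k ω = s k} ≤ P {ω | ∀ k ≤ n, X k ω = s k} :=
          measure_mono (fun ω hω k _ => hω k)
      _ ≤ ENNReal.ofReal (∏ k ∈ range n, stepProb G γ s k (s (k + 1))) := prob_path_le h s n
      _ ≤ ENNReal.ofReal (Real.exp (-∑ k ∈ range n, ε k)) := by
          apply ENNReal.ofReal_le_ofReal
          rw [← Finset.sum_neg_distrib, Real.exp_sum]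
          apply Finset.prod_le_prod
          · intro k _; exact stepProb_nonneg G _ _ _
          · intro k _
            have := Real.add_one_le_exp (-(ε k))
            linarith [hε k]
  have hlim : Filter.Tendsto (fun n => ENNReal.ofReal (Real.exp (-∑ k ∈ range n, ε k)))
      Filter.atTop (nhds 0) := by
    rw [← ENNReal.ofReal_zero]
    apply (ENNReal.continuous_ofReal.tendsto 0).comp
    exact Real.tendsto_exp_neg_atTop_nhds_zero.comp hdiv
  exact le_antisymm (ge_of_tendsto' hlim hbound) bot_le

end path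

section divergence

/-- If `ε ≥ 0` and `ε (a + j m) ≥ c / (a + j m + 1)` then the partial sums of `ε` diverge. -/
lemma tendsto_sum_of_arith {ε : ℕ → ℝ} (hε0 : ∀ k, 0 ≤ ε k) {a m : ℕ} (hm : 0 < m) {c : ℝ}
    (hc : 0 < c) (hle : ∀ j : ℕ, c / (((a + j * m : ℕ) : ℝ) + 1) ≤ ε (a + j * m)) :
    Filter.Tendsto (fun n => ∑ k ∈ range n, ε k) Filter.atTop Filter.atTop := by
  have hnot : ¬ Summable ε := by
    intro hs
    have hinj : Function.Injective (fun j : ℕ => a + j * m) := by
      intro i j hij
      have : i * m = j * m := by simpa using hij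
      exact Nat.eq_of_mul_eq_mul_right hm this
    have hs2 : Summable (fun j : ℕ => ε (a + j * m)) := hs.comp_injective hinj
    have hs3 : Summable (fun j : ℕ => c / ((a : ℝ) + m + 1) * (1 / ((j : ℝ) + 1))) := by
      refine Summable.of_nonneg_of_le (fun j => by positivity) (fun j => ?_) hs2
      refine le_trans ?_ (hle j)
      have h1 : (((a + j * m : ℕ) : ℝ) + 1) ≤ ((a : ℝ) + m + 1) * ((j : ℝ) + 1) := by
        push_cast
        have : (0 : ℝ) ≤ a := Nat.cast_nonneg a
        have : (0 : ℝ) ≤ m := Nat.cast_nonneg m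
        have : (0 : ℝ) ≤ j := Nat.cast_nonneg j
        nlinarith
      calc c / ((a : ℝ) + m + 1) * (1 / ((j : ℝ) + 1))
          = c / (((a : ℝ) + m + 1) * ((j : ℝ) + 1)) := by
            rw [div_mul_div_comm, mul_one]
        _ ≤ c / (((a + j * m : ℕ) : ℝ) + 1) :=
            div_le_div_of_nonneg_left hc.le (by positivity) h1
    have hs4 : Summable (fun j : ℕ => 1 / ((j : ℝ) + 1)) := by
      have hne : c / ((a : ℝ) + m + 1) ≠ 0 := by positivity
      exact (summable_mul_left_iff hne).mp hs3
    have := (summable_nat_add_iff (f := fun j : ℕ => 1 / (j : ℝ)) 1).mp (by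
      simpa using hs4)
    exact Real.not_summable_one_div_natCast this
  exact not_summable_iff_tendsto_nat_atTop_of_nonneg hε0 |>.mp hnot

end divergence

section countable

/-- The set of eventually periodic sequences in a countable type is countable. -/
lemma countable_eventually_periodic [Countable V] :
    {s : ℕ → V | ∃ N m : ℕ, 0 < m ∧ ∀ n, N ≤ n → s (n + m) = s n}.Countable := by
  have : {s : ℕ → V | ∃ N m : ℕ, 0 < m ∧ ∀ n, N ≤ n → s (n + m) = s n} =
      ⋃ N : ℕ, ⋃ m : ℕ, {s : ℕ → V | 0 < m ∧ ∀ n, N ≤ n → s (n + m) = s n} := by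
    ext s; simp
  rw [this]
  refine Set.countable_iUnion fun N => Set.countable_iUnion fun m => ?_
  have hinj : Set.InjOn (fun (s : ℕ → V) (i : Fin (N + m)) => s i)
      {s : ℕ → V | 0 < m ∧ ∀ n, N ≤ n → s (n + m) = s n} := by
    rintro s ⟨hm, hs⟩ t ⟨_, ht⟩ hst
    funext n
    induction n using Nat.strong_induction_on with
    | _ n ih =>
      rcases Nat.lt_or_ge n (N + m) with h | h
      · exact congrFun hst ⟨n, h⟩
      · obtain ⟨k, rfl⟩ : ∃ k, n = k + m := ⟨n - m, by omega⟩
        rw [hs k (by omega), ht k (by omega)]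
        exact ih k (by omega)
  exact Set.MapsTo.countable_of_injOn (t := Set.univ) (fun _ _ => Set.mem_univ _) hinj
    (Set.countable_univ)

/-- A connected locally finite graph has a countable vertex set. -/
lemma countable_of_connected (G : SimpleGraph V) [G.LocallyFinite] (hG : G.Connected) :
    Countable V := by
  classical
  obtain ⟨v⟩ := hG.nonempty
  let B : ℕ → Finset V := fun n => Nat.rec {v} (fun _ S => S ∪ S.biUnion fun x => G.neighborFinset x) n
  have hB : ∀ (x : V) (p : G.Walk v x), x ∈ B p.length := by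
    intro x p
    induction p using SimpleGraph.Walk.concatRec with
    | Hnil => simp [B]
    | Hconcat p h ih =>
      rw [SimpleGraph.Walk.length_concat]
      show _ ∈ B p.length ∪ (B p.length).biUnion fun x => G.neighborFinset x
      rw [Finset.mem_union, Finset.mem_biUnion]
      right
      exact ⟨_, ih, by simpa using h⟩
  have hcov : (Set.univ : Set V) = ⋃ n : ℕ, {x | x ∈ B n} := by
    ext x
    simp only [Set.mem_univ, Set.mem_iUnion, Set.mem_ofPred_eq, true_iff]
    obtain ⟨p⟩ := hG.preconnected v x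
    exact ⟨p.length, hB x p⟩
  have : (Set.univ : Set V).Countable := by
    rw [hcov]
    exact Set.countable_iUnion fun n => (B n).finite_toSet.countable
  exact Set.countable_univ_iff.mp this

end countable

section main

variable [DecidableEq V] {G : SimpleGraph V} [G.LocallyFinite] {γ : ℝ}

/-- Deficit at a time when another neighbour of weight at least `w` is available. -/
lemma deficit_lower {w : ℝ} (hw : 0 < w) (hγ1 : γ ≤ 1) (n : ℕ) :
    (w / (w + 1)) / ((n : ℝ) + 1) ≤ w / (w + ((n : ℝ) + 1) ^ γ) := by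
  have hn1 : (1 : ℝ) ≤ (n : ℝ) + 1 := by linarith [(Nat.cast_nonneg n : (0 : ℝ) ≤ n)]
  have h1 : ((n : ℝ) + 1) ^ γ ≤ (n : ℝ) + 1 := by
    calc ((n : ℝ) + 1) ^ γ ≤ ((n : ℝ) + 1) ^ (1 : ℝ) := Real.rpow_le_rpow_of_exponent_le hn1 hγ1
      _ = _ := Real.rpow_one _
  have h0 : 0 < ((n : ℝ) + 1) ^ γ := by positivity
  rw [div_div]
  apply div_le_div_of_nonneg_left hw.le (by positivity)
  nlinarith

lemma deficit_lower_half (hγ : 0 < γ) (hγ1 : γ ≤ 1 / 2) (n : ℕ) :
    (1 / 2) / ((n : ℝ) + 1) ≤
      ((n : ℝ) + 1) ^ (-γ) / (((n : ℝ) + 1) ^ (-γ) + ((n : ℝ) + 1) ^ γ) := by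
  have hn1 : (1 : ℝ) ≤ (n : ℝ) + 1 := by linarith [(Nat.cast_nonneg n : (0 : ℝ) ≤ n)]
  have hn0 : (0 : ℝ) < (n : ℝ) + 1 := by linarith
  set M := ((n : ℝ) + 1) ^ γ with hM
  have hM1 : 1 ≤ M := Real.one_le_rpow hn1 hγ.le
  have hMneg : ((n : ℝ) + 1) ^ (-γ) = M⁻¹ := Real.rpow_neg hn0.le γ
  have hM2 : M * M ≤ (n : ℝ) + 1 := by
    rw [hM, ← Real.rpow_add hn0]
    calc ((n : ℝ) + 1) ^ (γ + γ) ≤ ((n : ℝ) + 1) ^ (1 : ℝ) :=
          Real.rpow_le_rpow_of_exponent_le hn1 (by linarith)
      _ = _ := Real.rpow_one _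
  rw [hMneg]
  have h2 : M⁻¹ / (M⁻¹ + M) = 1 / (1 + M * M) := by
    have : M ≠ 0 := by positivity
    field_simp
  rw [h2, div_div]
  apply div_le_div_of_nonneg_left (by norm_num) (by positivity)
  nlinarith

lemma zmod_add_one_ne_sub_one {m : ℕ} (hm : 3 ≤ m) (i : ZMod m) : i - 1 ≠ i + 1 := by
  intro h
  have h2 : ((2 : ℕ) : ZMod m) = 0 := by
    have : (1 : ZMod m) + 1 = 0 := by
      have : i - 1 - i + 1 = i + 1 - i + 1 := by rw [h]
      calc (1 : ZMod m) + 1 = i + 1 - i + 1 := by ring
        _ = i - 1 - i + 1 := this.symm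
        _ = 0 := by ring
    push_cast
    rw [← this]; norm_num
  rw [ZMod.natCast_eq_zero_iff] at h2
  have := Nat.le_of_dvd (by norm_num) h2
  omega

lemma mem_of_closed {V : Type} {G : SimpleGraph V} (hG : G.Connected) (S : Set V) (x0 : V)
    (h0 : x0 ∈ S) (hcl : ∀ x ∈ S, ∀ y, G.Adj x y → y ∈ S) (y : V) : y ∈ S := by
  obtain ⟨p⟩ := hG.preconnected x0 y
  induction p with
  | nil => exact h0
  | cons h p ih => exact ih (hcl _ h0 _ h)

/-- Deterministic part: along every trapped trajectory the deficits diverge. -/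
lemma exists_deficit (hG : G.Connected) (hγ : 0 < γ)
    (hcase : γ ≤ 1 / 2 ∨ (γ ≤ 1 ∧ ∃ x, 3 ≤ G.degree x)) (s : ℕ → V) (hs : Trapped G s) :
    ∃ ε : ℕ → ℝ, (∀ k, 0 ≤ ε k) ∧ (∀ k, stepProb G γ s k (s (k + 1)) ≤ 1 - ε k) ∧
      Filter.Tendsto (fun n => ∑ k ∈ range n, ε k) Filter.atTop Filter.atTop := by
  obtain ⟨m, u, hm, hinj, hadj, N, i, hN⟩ := hs
  haveI : NeZero m := ⟨by omega⟩
  -- it suffices to find an arithmetic progression of times with good deficits
  suffices h : ∃ (a : ℕ) (c : ℝ) (e : ℕ → ℝ), 0 < c ∧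
      (∀ j : ℕ, stepProb G γ s (a + j * m) (s (a + j * m + 1)) ≤ 1 - e (a + j * m)) ∧
      (∀ j : ℕ, c / (((a + j * m : ℕ) : ℝ) + 1) ≤ e (a + j * m)) by
    obtain ⟨a, c, e, hc, h1, h2⟩ := h
    classical
    refine ⟨fun k => if ∃ j : ℕ, k = a + j * m then c / ((k : ℝ) + 1) else 0, ?_, ?_, ?_⟩
    · intro k
      show 0 ≤ if ∃ j : ℕ, k = a + j * m then c / ((k : ℝ) + 1) else 0
      split_ifs <;> positivity
    · intro k
      show _ ≤ 1 - if ∃ j : ℕ, k = a + j * m then c / ((k : ℝ) + 1) else 0
      split_ifs with hk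
      · obtain ⟨j, rfl⟩ := hk
        linarith [h1 j, h2 j]
      · simpa using stepProb_le_one G s k (s (k + 1))
    · apply tendsto_sum_of_arith (a := a) (m := m) (c := c) _ (by omega) hc
      · intro j
        simp
      · intro k
        show 0 ≤ if ∃ j : ℕ, k = a + j * m then c / ((k : ℝ) + 1) else 0
        split_ifs <;> positivity
  have hsN : ∀ k, N ≤ k → s k = u (i + ((k - N : ℕ) : ZMod m)) := by
    intro k hk
    have := hN (k - N)
    rwa [Nat.add_sub_cancel' hk] at this
  have hsN1 : ∀ k, N ≤ k → s (k + 1) = u (i + ((k - N : ℕ) : ZMod m) + 1) := by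
    intro k hk
    rw [hsN (k + 1) (by omega)]
    congr 1
    have : k + 1 - N = (k - N) + 1 := by omega
    rw [this]
    push_cast
    ring
  rcases hcase with hhalf | ⟨hone, x, hx⟩
  · -- the backward edge
    refine ⟨N, 1 / 2, fun k => ((k : ℝ) + 1) ^ (-γ) / (((k : ℝ) + 1) ^ (-γ) + ((k : ℝ) + 1) ^ γ),
      by norm_num, ?_, ?_⟩
    · intro j
      set k := N + j * m with hk
      have hkN : N ≤ k := by omega
      set l : ZMod m := i + ((k - N : ℕ) : ZMod m) with hl
      have e1 : s k = u l := hsN k hkN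
      have e2 : s (k + 1) = u (l + 1) := hsN1 k hkN
      have hz : G.Adj (s k) (u (l - 1)) := by
        rw [e1]
        have := hadj (l - 1)
        rw [sub_add_cancel] at this
        exact this.symm
      apply stepProb_le G hγ s k hz
      · rw [e2]
        intro h
        exact zmod_add_one_ne_sub_one hm l (hinj h)
      · positivity
      · exact le_polyWeight hγ (crossing_abs_le _ _ _ _)
    · intro j
      exact deficit_lower_half hγ hhalf _
  · -- a vertex of degree at least three on the circuit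
    have hl : ∃ l : ZMod m, ∃ z, G.Adj (u l) z ∧ z ≠ u (l + 1) ∧ z ≠ u (l - 1) := by
      by_contra hcon
      push Not at hcon
      have hcl : ∀ y, y ∈ Set.range u := by
        apply mem_of_closed hG (Set.range u) (u 0) ⟨0, rfl⟩
        rintro _ ⟨l, rfl⟩ z hz
        by_cases h1 : z = u (l + 1)
        · exact ⟨l + 1, h1.symm⟩
        · exact ⟨l - 1, (hcon l z hz h1).symm⟩
      obtain ⟨l, rfl⟩ := hcl x
      have hsub : G.neighborFinset (u l) ⊆ {u (l + 1), u (l - 1)} := by
        intro z hz
        rw [SimpleGraph.mem_neighborFinset] at hz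
        rw [mem_insert, mem_singleton]
        by_cases h1 : z = u (l + 1)
        · exact Or.inl h1
        · exact Or.inr (hcon l z hz h1)
      have h2 := (Finset.card_le_card hsub).trans Finset.card_le_two
      rw [SimpleGraph.card_neighborFinset_eq_degree] at h2
      omega
    obtain ⟨l, z, hlz, hz1, hz2⟩ := hl
    -- the times at which the trajectory is at `u l`
    set a : ℕ := N + (l - i).val with ha
    have hcast : (((l - i).val : ℕ) : ZMod m) = l - i := by simp
    have hidx : ∀ j : ℕ, i + (((a + j * m) - N : ℕ) : ZMod m) = l := by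
      intro j
      have : a + j * m - N = (l - i).val + j * m := by omega
      rw [this]
      push_cast
      simp
    have hconst : ∀ n, N ≤ n → crossing s n (u l) z = crossing s N (u l) z := by
      intro n hn
      induction n, hn using Nat.le_induction with
      | base => rfl
      | succ n hn ih =>
        rw [← ih]
        unfold crossing
        rw [Finset.sum_range_succ]
        have e1 := hsN n hn
        have e2 := hsN1 n hn
        set b : ZMod m := i + ((n - N : ℕ) : ZMod m)
        have h1 : ¬ (s n = u l ∧ s (n + 1) = z) := by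
          rintro ⟨h3, h4⟩
          rw [e1] at h3
          rw [e2, hinj h3] at h4
          exact hz1 h4.symm
        have h2 : ¬ (s n = z ∧ s (n + 1) = u l) := by
          rintro ⟨h3, h4⟩
          rw [e2] at h4
          have h5 := hinj h4
          have h6 : b = l - 1 := by rw [← h5]; ring
          rw [e1, h6] at h3
          exact hz2 h3.symm
        rw [if_neg h1, if_neg h2]
        ring
    set w : ℝ := polyWeight γ (crossing s N (u l) z) with hw
    have hw0 : 0 < w := polyWeight_pos _
    refine ⟨a, w / (w + 1), fun k => w / (w + ((k : ℝ) + 1) ^ γ), by positivity, ?_, ?_⟩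
    · intro j
      have hkN : N ≤ a + j * m := by omega
      have e1 : s (a + j * m) = u l := by rw [hsN _ hkN, hidx j]
      have e2 : s (a + j * m + 1) = u (l + 1) := by rw [hsN1 _ hkN, hidx j]
      apply stepProb_le G hγ s (a + j * m) (z := z)
      · rw [e1]; exact hlz
      · rw [e2]; exact hz1
      · exact hw0
      · rw [e1, hconst _ hkN]
    · intro j
      exact deficit_lower hw0 hone _

/-- The trajectories that are trapped form a countable set. -/
lemma countable_trapped [Countable V] : {s : ℕ → V | Trapped G s}.Countable := by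
  apply countable_eventually_periodic.mono
  rintro s ⟨m, u, hm, _, _, N, i, hN⟩
  refine ⟨N, m, by omega, fun n hn => ?_⟩
  obtain ⟨k, rfl⟩ : ∃ k, n = N + k := ⟨n - N, by omega⟩
  rw [add_assoc, hN, hN]
  push_cast
  simp

end main

section existence

variable [DecidableEq V] (G : SimpleGraph V) [G.LocallyFinite] {γ : ℝ}

lemma crossing_congr {s t : ℕ → V} {n : ℕ} (h : ∀ k ≤ n, s k = t k) (x y : V) :
    crossing s n x y = crossing t n x y := by
  unfold crossing
  apply Finset.sum_congr rfl
  intro k hk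
  have hk := mem_range.mp hk
  rw [h k (by omega), h (k + 1) (by omega)]

lemma stepProb_congr {s t : ℕ → V} {n : ℕ} (h : ∀ k ≤ n, s k = t k) (y : V) :
    stepProb G γ s n y = stepProb G γ t n y := by
  unfold stepProb
  rw [h n le_rfl]
  simp only [crossing_congr h]

lemma tsum_stepProb (hpos : ∀ x, ∃ y, G.Adj x y) (s : ℕ → V) (n : ℕ) :
    ∑' y, ENNReal.ofReal (stepProb G γ s n y) = 1 := by
  have hne : (G.neighborFinset (s n)).Nonempty := by
    obtain ⟨y, hy⟩ := hpos (s n)
    exact ⟨y, by simpa using hy⟩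
  have hsum : 0 < ∑ z ∈ G.neighborFinset (s n), polyWeight γ (crossing s n (s n) z) :=
    Finset.sum_pos (fun z _ => polyWeight_pos _) hne
  rw [tsum_eq_sum (s := G.neighborFinset (s n))]
  · rw [← ENNReal.ofReal_sum_of_nonneg (fun y _ => stepProb_nonneg G s n y)]
    have : ∑ y ∈ G.neighborFinset (s n), stepProb G γ s n y = 1 := by
      rw [Finset.sum_congr rfl (fun y hy => by unfold stepProb; rw [if_pos hy]),
        ← Finset.sum_div, div_self hsum.ne']
    rw [this, ENNReal.ofReal_one]
  · intro y hy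
    unfold stepProb
    rw [if_neg hy, ENNReal.ofReal_zero]

/-- The reinforced walk exists on every locally finite graph without isolated vertices. -/
theorem exists_walk [Countable V] (hpos : ∀ x, ∃ y, G.Adj x y) (v : V) :
    ∃ (_ : MeasurableSpace (ℕ → V)) (P : Measure (ℕ → V)),
      IsReinforcedWalk G γ v P (fun n ω => ω n) := by
  obtain ⟨mS, P, h1, h2, h3, h4⟩ := X142.exists_history_chain
    (fun s n y => ENNReal.ofReal (stepProb G γ s n y)) (tsum_stepProb G hpos)
    (fun s t n y h => by rw [stepProb_congr G h]) v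
  exact ⟨mS, P, h1, h2, h3, h4⟩

end existence

/-- **Main result.**  Let `G` be a connected locally finite graph with at least two vertices and
let `0 < γ ≤ 1/2`, or let `0 < γ ≤ 1` and suppose that `G` has a vertex of degree at least three.
Then the directed edge reinforced walk with polynomial reinforcement of parameter `γ` started at
any vertex exists, and every such walk is almost surely not trapped in any directed circuit. -/
theorem result (V : Type) [DecidableEq V] [Nontrivial V] (G : SimpleGraph V) [G.LocallyFinite]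
    (hG : G.Connected) (γ : ℝ) (hγ : 0 < γ)
    (hcase : γ ≤ 1 / 2 ∨ (γ ≤ 1 ∧ ∃ x, 3 ≤ G.degree x)) (v : V) :
    (∃ (Ω : Type) (_ : MeasurableSpace Ω) (P : Measure Ω) (X : ℕ → Ω → V),
      IsReinforcedWalk G γ v P X) ∧
    ∀ (Ω : Type) [MeasurableSpace Ω] (P : Measure Ω) (X : ℕ → Ω → V),
      IsReinforcedWalk G γ v P X →
      MeasurableSet {ω | Trapped G (fun n => X n ω)} ∧
      P {ω | Trapped G (fun n => X n ω)} = 0 := by
  haveI : Countable V := countable_of_connected G hG
  constructor
  · have hpos : ∀ x, ∃ y, G.Adj x y := by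
      intro x
      obtain ⟨y, hy⟩ := exists_ne x
      obtain ⟨p⟩ := hG.preconnected x y
      cases p with
      | nil => exact absurd rfl hy
      | cons h p => exact ⟨_, h⟩
    obtain ⟨mS, P, hP⟩ := exists_walk (γ := γ) G hpos v
    exact ⟨_, mS, P, _, hP⟩
  · intro Ω _ P X hX
    have hset : {ω | Trapped G (fun n => X n ω)} =
        ⋃ s ∈ {s : ℕ → V | Trapped G s}, {ω | ∀ k, X k ω = s k} := by
      ext ω
      simp only [Set.mem_ofPred_eq, Set.mem_iUnion, exists_prop]
      constructor
      · intro h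
        exact ⟨_, h, fun k => rfl⟩
      · rintro ⟨s, hs, h⟩
        have : (fun n => X n ω) = s := funext h
        rw [this]
        exact hs
    constructor
    · rw [hset]
      refine MeasurableSet.biUnion countable_trapped fun s _ => ?_
      have : {ω | ∀ k, X k ω = s k} = ⋂ k, {ω | X k ω = s k} := by
        ext ω; simp
      rw [this]
      exact MeasurableSet.iInter fun k => hX.meas k (s k)
    · rw [hset, measure_biUnion_null_iff countable_trapped]
      intro s hs
      obtain ⟨ε, h0, h1, h2⟩ := exists_deficit hG hγ hcase s hs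
      exact prob_traj_eq_zero hX s ε h0 h1 h2

end Pool.Agent.Results.MP_856411_pr.NeverTrapped
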